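import Pool.Agent.MTL.Stmts

/-! MTL, module RES: an element integral over `ℤ[t]` which is fixed by the decomposition group has an
integral value. -/

set_option autoImplicit false

namespace Pool.Agent.MTL.H11

open Polynomial Pool.Agent.MTL

/-- the integral polynomials as elements of `BB` -/
noncomputable def zb : ℤ[X] →+* BB :=
  (algebraMap ℚ[X] BB).comp (mapRingHom (Int.castRingHom ℚ))

theorem zb_coe : (algebraMap BB Om).comp zb = zt := by
  ext f
  · simp [zb, zt]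
  · simp [zb, zt]

theorem pi_zb (n : ℕ) (π : BB →+* AlgebraicClosure ℚ) (hπ : π (algebraMap ℚ[X] BB X) = n) :
    π.comp zb = (Int.castRingHom (AlgebraicClosure ℚ)).comp (evalRingHom (n : ℤ)) := by
  ext
  · simp
  · simp only [zb, RingHom.comp_apply, coe_mapRingHom, map_X, coe_evalRingHom, eval_X]
    rw [hπ]
    simp

theorem eval_pi (n : ℕ) (π : BB →+* AlgebraicClosure ℚ) (hπ : π (algebraMap ℚ[X] BB X) = n)
    (x : BB) (g : ℤ[X][X]) (h : g.eval₂ zt (x : Om) = 0) :
    g.eval₂ ((Int.castRingHom (AlgebraicClosure ℚ)).comp (evalRingHom (n : ℤ))) (π x) = 0 := by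
  have h1 : (algebraMap BB Om) (g.eval₂ zb x) = 0 := by
    rw [hom_eval₂, zb_coe]
    exact h
  have h2 : g.eval₂ zb x = 0 := Subtype.ext h1
  rw [← pi_zb n π hπ, ← hom_eval₂, h2, map_zero]

theorem isAlgClosure_rat (A : Algebra ℚ (AlgebraicClosure ℚ)) :
    @IsAlgClosure ℚ (AlgebraicClosure ℚ) _ _ A _ := by
  have h : A = AlgebraicClosure.instAlgebra (k := ℚ) := Subsingleton.elim _ _
  rw [h]
  infer_instance

theorem res (hdec : DecStmt) : ResStmt := by
  intro n π hπ x hx hfix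
  -- the value is fixed by the Galois group
  have h1 : ∀ τ : GQ, τ (π x) = π x := by
    intro τ
    obtain ⟨σ, hσ⟩ := hdec n π hπ τ
    have h2 := hfix σ ⟨τ, hσ⟩
    rw [← hσ x, h2]
  have : IsAlgClosure ℚ (AlgebraicClosure ℚ) := isAlgClosure_rat _
  have : Normal ℚ (AlgebraicClosure ℚ) := IsAlgClosure.normal ℚ (AlgebraicClosure ℚ)
  have : IsGalois ℚ (AlgebraicClosure ℚ) := IsGalois.mk
  have h2 : π x ∈ (⊥ : IntermediateField ℚ (AlgebraicClosure ℚ)) :=
    (InfiniteGalois.mem_bot_iff_fixed (π x)).2 h1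
  obtain ⟨q, hq⟩ := IntermediateField.mem_bot.1 h2
  -- the value is integral
  obtain ⟨p, hp, hp0⟩ := hx
  have h3 := eval_pi n π hπ x p hp0
  have h4 : IsIntegral ℤ (π x) := by
    refine ⟨p.map (evalRingHom (n : ℤ)), hp.map _, ?_⟩
    rw [eval₂_map]
    exact h3
  rw [← hq] at h4
  have h5 : IsIntegral ℤ q :=
    (isIntegral_algebraMap_iff (FaithfulSMul.algebraMap_injective ℚ (AlgebraicClosure ℚ))).1 h4
  obtain ⟨z, hz⟩ := (IsIntegrallyClosed.isIntegral_iff (R := ℤ) (K := ℚ)).1 h5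
  have hzπ : π x = (z : AlgebraicClosure ℚ) := by
    rw [← hq, ← hz]
    simp
  refine ⟨z, hzπ, fun g hg => ?_⟩
  have h6 := eval_pi n π hπ x g hg
  have h7 : (z : AlgebraicClosure ℚ) = (Int.castRingHom (AlgebraicClosure ℚ)) z := rfl
  rw [hzπ, h7, ← hom_eval₂] at h6
  have h8 : (g.eval₂ (evalRingHom (n : ℤ)) z : ℤ) = 0 := by
    have h9 : ((g.eval₂ (evalRingHom (n : ℤ)) z : ℤ) : AlgebraicClosure ℚ) = 0 := h6
    exact_mod_cast h9
  rw [eval₂_evalRingHom] at h8
  exact h8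

end Pool.Agent.MTL.H11
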